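import Pool.Agent.Helper7.KT.St

set_option autoImplicit false

namespace Pool.Agent.Helper9.KT

open Finset SimpleGraph Filter Topology
open EX Pool.Agent.Helper7.KT

open scoped Classical

/-- KT module FAM: one homogeneous family. -/
theorem hFAM (hFAA : StFAA) (hFAB : StFAB) : StFAM := by
  intro n k N hk hs H F P J hF hHom hP hcov hown δ hδ
  set Γ : SimpleGraph (Fin n) := rg N H with hΓ
  have hpos1 : (0 : ℝ) ≤ ((∑ v, dg Γ univ v : ℕ) : ℝ) * (n : ℝ) ^ (k - 2) := by positivity
  have hpos2 : (0 : ℝ) ≤ (n : ℝ) ^ 2 * (δ * n) ^ (k - 2) := by positivity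
  rcases F.eq_empty_or_nonempty with hFe | hne
  · rw [hFe]
    simp only [filter_empty, card_empty, Nat.cast_zero]
    exact add_nonneg hpos1 hpos2
  obtain ⟨b, hb⟩ := hown
  -- rich pairs
  have hadj : ∀ l l' : Fin (k + 1), l ≠ l' → ({l, l'} : Finset (Fin (k + 1))) ∈ J →
      ∀ e ∈ F, Γ.Adj (e l) (e l') := by
    intro l l' hll hJ e he
    refine ⟨fun h => hll ((hF e he).1.injective h), ?_⟩
    exact EX.UB.rich_of_ker hF hP (hHom.ker e he _ hJ)
  have hdet : ∀ e ∈ F, ∀ e' ∈ F, (∀ i, i ≠ b → e i = e' i) → e = e' :=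
    fun e he e' he' h => EX.UB.hom_own hHom hb he he' h
  -- a pair in J away from b
  have key : ∀ l l' : Fin (k + 1), l ≠ b → l' ≠ b → l ≠ l' →
      ({l, l'} : Finset (Fin (k + 1))) ∈ J →
      ((F.filter fun e => ¬ ∃ b, δ * n ≤ dg Γ univ (e b) ∧
        ∀ i, i ≠ b → Γ.Adj (e b) (e i)).card : ℝ) ≤
      ((∑ v, dg Γ univ v : ℕ) : ℝ) * (n : ℝ) ^ (k - 2) + (n : ℝ) ^ 2 * (δ * n) ^ (k - 2) := by
    intro l l' hl hl' hll hJ
    have h1 := hFAA n k Γ F b l l' hl hl' hll hdet (hadj l l' hll hJ)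
    have h2 : ((F.filter fun e => ¬ ∃ b, δ * n ≤ dg Γ univ (e b) ∧
        ∀ i, i ≠ b → Γ.Adj (e b) (e i)).card : ℝ) ≤ (F.card : ℝ) := by
      exact_mod_cast card_le_card (filter_subset _ _)
    have h3 : (F.card : ℝ) ≤ ((∑ v, dg Γ univ v : ℕ) : ℝ) * (n : ℝ) ^ (k - 2) := by
      exact_mod_cast h1
    linarith
  have hcard2 : ∀ i i' : Fin (k + 1), ({i, i'} : Finset (Fin (k + 1))) ≠ univ := by
    intro i i' h
    have h1 := congrArg Finset.card h
    have h2 : ({i, i'} : Finset (Fin (k + 1))).card ≤ 2 := card_le_two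
    rw [card_univ, Fintype.card_fin] at h1
    omega
  -- two places different from two given ones
  have hpl : ∀ c : Fin (k + 1), ∃ l l' : Fin (k + 1), l ≠ b ∧ l' ≠ b ∧ l ≠ l' ∧ l ≠ c ∧ l' ≠ c := by
    intro c
    have h1 : 1 < ((univ : Finset (Fin (k + 1))) \ {b, c}).card := by
      have h2 := Finset.le_card_sdiff ({b, c} : Finset (Fin (k + 1))) univ
      have h3 : ({b, c} : Finset (Fin (k + 1))).card ≤ 2 := card_le_two
      rw [card_univ, Fintype.card_fin] at h2
      omega
    obtain ⟨l, hl, l', hl', hll⟩ := Finset.one_lt_card.1 h1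
    have h4 := (Finset.mem_sdiff.1 hl).2
    have h5 := (Finset.mem_sdiff.1 hl').2
    rw [Finset.mem_insert, Finset.mem_singleton, not_or] at h4 h5
    exact ⟨l, l', h4.1, h5.1, hll, h4.2, h5.2⟩
  by_cases hB : ∃ b' ∈ own J, b' ≠ b
  · obtain ⟨b', hb', hbb⟩ := hB
    obtain ⟨l, l', hl, hl', hll, hlc, hlc'⟩ := hpl b'
    refine key l l' hl hl' hll (hHom.mem_J (by omega) hs hne hcov (hcard2 _ _) ?_)
    have h1 : 1 < (own J \ {l, l'}).card := by
      refine Finset.one_lt_card.2 ⟨b, ?_, b', ?_, hbb.symm⟩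
      · refine mem_sdiff.2 ⟨hb, ?_⟩
        rw [mem_insert, mem_singleton, not_or]
        exact ⟨hl.symm, hl'.symm⟩
      · refine mem_sdiff.2 ⟨hb', ?_⟩
        rw [mem_insert, mem_singleton, not_or]
        exact ⟨hlc.symm, hlc'.symm⟩
    omega
  · have hB' : ∀ i ∈ own J, i = b := by
      intro i hi
      by_contra h
      exact hB ⟨i, hi, h⟩
    obtain ⟨l, l', hl, hl', hll, -, -⟩ := hpl b
    by_cases hJ : ({l, l'} : Finset (Fin (k + 1))) ∈ J
    · exact key l l' hl hl' hll hJ
    have hbJ : ∀ i : Fin (k + 1), ({b, i} : Finset (Fin (k + 1))) ∈ J := by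
      intro i
      refine hHom.mem_J (by omega) hs hne hcov (hcard2 _ _) ?_
      have h5 : own J \ {b, i} = ∅ := by
        rw [Finset.eq_empty_iff_forall_notMem]
        intro a ha
        obtain ⟨h1, h2⟩ := mem_sdiff.1 ha
        rw [mem_insert, not_or] at h2
        exact h2.1 (hB' a h1)
      rw [h5]
      simp
    have hZ : (insert b ({l, l'} : Finset (Fin (k + 1)))) ≠ univ := by
      intro h
      have h1 := congrArg Finset.card h
      have h2 : (insert b ({l, l'} : Finset (Fin (k + 1)))).card ≤ 3 := card_le_three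
      rw [card_univ, Fintype.card_fin] at h1
      omega
    have hZJ : (insert b ({l, l'} : Finset (Fin (k + 1)))) ∈ J := by
      refine hHom.mem_J (by omega) hs hne hcov hZ ?_
      have h5 : own J \ insert b {l, l'} = ∅ := by
        rw [Finset.eq_empty_iff_forall_notMem]
        intro a ha
        obtain ⟨h1, h2⟩ := mem_sdiff.1 ha
        rw [mem_insert, not_or] at h2
        exact h2.1 (hB' a h1)
      rw [h5]
      simp
    have h2det : ∀ e ∈ F, ∀ e' ∈ F, e l = e' l → e l' = e' l' → e b = e' b := by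
      intro e he e' he' h1 h2
      by_contra hbb
      have hee : e ≠ e' := fun h => hbb (by rw [h])
      have h4 := hHom.inter e he e' he' hee
      have h6 := hHom.inter_mem hs hne h4 hZJ
      have h7 : agr e e' ∩ insert b {l, l'} = {l, l'} := by
        ext i
        simp only [mem_inter, mem_insert, mem_singleton]
        constructor
        · rintro ⟨h8, rfl | h9⟩
          · exact absurd ((EX.UB.mem_agr _ _ _).1 h8) hbb
          · exact h9
        · rintro (rfl | rfl)
          · exact ⟨(EX.UB.mem_agr _ _ _).2 h1, Or.inr (Or.inl rfl)⟩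
          · exact ⟨(EX.UB.mem_agr _ _ _).2 h2, Or.inr (Or.inr rfl)⟩
      rw [h7] at h6
      exact hJ h6
    have hG := hFAB n k Γ (F.filter fun e => ¬ ∃ b, δ * n ≤ dg Γ univ (e b) ∧
        ∀ i, i ≠ b → Γ.Adj (e b) (e i)) b l l' δ hδ hl hl' hll
      (fun e he e' he' h => hdet e (mem_filter.1 he).1 e' (mem_filter.1 he').1 h)
      (fun e he e' he' h h' => h2det e (mem_filter.1 he).1 e' (mem_filter.1 he').1 h h')
      (fun e he i hi => hadj b i hi.symm (hbJ i) e (mem_filter.1 he).1)
      (fun e he => by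
        have h1 := (mem_filter.1 he).2
        push Not at h1
        by_contra h2
        push Not at h2
        obtain ⟨i, hi, h3⟩ := h1 b h2.le
        exact h3 (hadj b i hi.symm (hbJ i) e (mem_filter.1 he).1))
    linarith

end Pool.Agent.Helper9.KT
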